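import Pool.Agent.Helper71.Cube.Rank

/-!
# Distance to the cube: optimal designs

A design is a family of points of `B` with weights; an optimal design has the largest
determinant. The exchange inequality, the sum of the leverages, adding and removing a point.
-/

namespace Pool.Agent.Cube

open Matrix

/-- The design `x` with the weights `ω` has the largest determinant among the families of `B`. -/
structure IsOpt {n : ℕ} {ι : Type} [Fintype ι] (B : Set (Fin n → ℝ)) (ω : ι → ℝ)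
    (x : ι → Fin n → ℝ) : Prop where
  mem : ∀ i, x i ∈ B
  pos : 0 < (dmat ω x).det
  max : ∀ y : ι → Fin n → ℝ, (∀ i, y i ∈ B) → (dmat ω y).det ≤ (dmat ω x).det

/-- The quadratic form of a design matrix. -/
theorem dmat_quad {n : ℕ} {ι : Type} [Fintype ι] (ω : ι → ℝ) (x : ι → Fin n → ℝ)
    (u : Fin n → ℝ) : u ⬝ᵥ dmat ω x *ᵥ u = ∑ i, ω i * (x i ⬝ᵥ u) ^ 2 := by
  unfold dmat
  rw [sum_mulVec, dotProduct_sum]
  refine Finset.sum_congr rfl fun i _ => ?_
  rw [smul_mulVec, vecMulVec_mulVec, dotProduct_smul, dotProduct_smul, dotProduct_comm u (x i)]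
  simp only [MulOpposite.smul_eq_mul_unop, smul_eq_mul, MulOpposite.unop_op]
  ring

theorem quad_inv_eq {n : ℕ} {ι : Type} [Fintype ι] {ω : ι → ℝ} {x : ι → Fin n → ℝ}
    (h : 0 < (dmat ω x).det) (z : Fin n → ℝ) :
    z ⬝ᵥ (dmat ω x)⁻¹ *ᵥ z = ∑ i, ω i * (x i ⬝ᵥ (dmat ω x)⁻¹ *ᵥ z) ^ 2 := by
  have hu : IsUnit (dmat ω x).det := h.ne'.isUnit
  rw [← dmat_quad, mulVec_mulVec, Matrix.mul_nonsing_inv _ hu, one_mulVec, dotProduct_comm]

theorem quad_inv_nonneg {n : ℕ} {ι : Type} [Fintype ι] {ω : ι → ℝ} {x : ι → Fin n → ℝ}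
    (hω : ∀ i, 0 ≤ ω i) (h : 0 < (dmat ω x).det) (z : Fin n → ℝ) :
    0 ≤ z ⬝ᵥ (dmat ω x)⁻¹ *ᵥ z := by
  rw [quad_inv_eq h]
  exact Finset.sum_nonneg fun i _ => mul_nonneg (hω i) (sq_nonneg _)

/-- The leverages sum up to the dimension. -/
theorem sum_leverage {n : ℕ} {ι : Type} [Fintype ι] {ω : ι → ℝ} {x : ι → Fin n → ℝ}
    (h : 0 < (dmat ω x).det) : ∑ i, ω i * (x i ⬝ᵥ (dmat ω x)⁻¹ *ᵥ x i) = n := by
  have hu : IsUnit (dmat ω x).det := h.ne'.isUnit
  have h1 : ((dmat ω x)⁻¹ * dmat ω x).trace = n := by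
    rw [Matrix.nonsing_inv_mul _ hu, trace_one, Fintype.card_fin]
  have h2 : ∀ T : Matrix (Fin n) (Fin n) ℝ, T * dmat ω x =
      ∑ i, ω i • vecMulVec (T *ᵥ x i) (x i) := by
    intro T
    unfold dmat
    rw [Finset.mul_sum]
    refine Finset.sum_congr rfl fun i _ => ?_
    rw [Matrix.mul_smul, mul_vecMulVec]
  rw [← h1, h2, trace_sum]
  refine Finset.sum_congr rfl fun i _ => ?_
  rw [trace_smul, trace_vecMulVec, smul_eq_mul, dotProduct_comm (x i)]

/-- The exchange inequality: the point `i` replaced by `z`. -/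
theorem IsOpt.exchange {n : ℕ} {ι : Type} [Fintype ι] [DecidableEq ι] {B : Set (Fin n → ℝ)}
    {ω : ι → ℝ} {x : ι → Fin n → ℝ} (h : IsOpt B ω x) (i : ι) {z : Fin n → ℝ} (hz : z ∈ B) :
    (1 - ω i * (x i ⬝ᵥ (dmat ω x)⁻¹ *ᵥ x i)) * (1 + ω i * (z ⬝ᵥ (dmat ω x)⁻¹ *ᵥ z)) ≤ 1 := by
  have h1 := h.max (Function.update x i z) (by
    intro j
    rcases eq_or_ne j i with rfl | hj
    · rw [Function.update_self]; exact hz
    · rw [Function.update_of_ne hj]; exact h.mem j)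
  rw [dmat_update, det_rank_two _ h.pos.ne'.isUnit (dmat_transpose ω x)] at h1
  have h2 := le_of_mul_le_mul_left (h1.trans (mul_one _).ge) h.pos
  have h3 : 0 ≤ ω i * ω i * (x i ⬝ᵥ (dmat ω x)⁻¹ *ᵥ z) ^ 2 :=
    mul_nonneg (mul_self_nonneg _) (sq_nonneg _)
  linarith

theorem continuous_det_dmat {n : ℕ} {ι : Type} [Fintype ι] (ω : ι → ℝ) :
    Continuous fun x : ι → Fin n → ℝ => (dmat ω x).det := by
  refine Continuous.matrix_det ?_
  refine continuous_matrix fun p q => ?_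
  simp only [dmat, Matrix.sum_apply, Matrix.smul_apply, vecMulVec_apply]
  fun_prop

/-- Optimal designs exist. -/
theorem exists_isOpt {n : ℕ} {ι : Type} [Fintype ι] {B : Set (Fin n → ℝ)} (hc : IsCompact B)
    (ω : ι → ℝ) (h : ∃ x : ι → Fin n → ℝ, (∀ i, x i ∈ B) ∧ 0 < (dmat ω x).det) :
    ∃ x, IsOpt B ω x := by
  obtain ⟨x0, hx0, h0⟩ := h
  have hK : IsCompact (Set.pi Set.univ fun _ : ι => B) := isCompact_univ_pi fun _ => hc
  obtain ⟨x, hx, hmax⟩ := hK.exists_isMaxOn ⟨x0, fun i _ => hx0 i⟩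
    (continuous_det_dmat ω).continuousOn
  refine ⟨x, fun i => hx i (Set.mem_univ i), h0.trans_le (hmax fun i _ => hx0 i), ?_⟩
  exact fun y hy => hmax fun i _ => hy i

/-- The weights: `1` for the points, `τ` for the sinks. -/
def wt (n w : ℕ) (τ : ℝ) : Fin n ⊕ Fin w → ℝ := Sum.elim (fun _ => 1) (fun _ => τ)

theorem dmat_cons {n w : ℕ} (τ : ℝ) (x : Fin n → Fin n → ℝ) (s : Fin w → Fin n → ℝ)
    (z : Fin n → ℝ) :
    dmat (wt n (w + 1) τ) (Sum.elim x (Fin.cons z s)) =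
      dmat (wt n w τ) (Sum.elim x s) + τ • vecMulVec z z := by
  unfold dmat wt
  simp only [Fintype.sum_sum_type, Sum.elim_inl, Sum.elim_inr, Fin.sum_univ_succ, Fin.cons_zero,
    Fin.cons_succ]
  abel

theorem exists_design {n : ℕ} {B : Set (Fin n → ℝ)} (hc : IsCompact B)
    {r : ℝ} (hr : 0 < r) (hB : ∀ i : Fin n, Pi.single i r ∈ B) (h0 : (0 : Fin n → ℝ) ∈ B)
    (w : ℕ) (τ : ℝ) : ∃ x, IsOpt B (wt n w τ) x := by
  refine exists_isOpt hc _ ⟨Sum.elim (fun i => Pi.single i r) (fun _ => 0), ?_, ?_⟩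
  · rintro (i | i)
    · exact hB i
    · exact h0
  · have h1 : dmat (wt n w τ) (Sum.elim (fun i => Pi.single i r) (fun _ => 0)) =
        diagonal fun _ : Fin n => r ^ 2 := by
      ext p q
      unfold dmat wt
      simp only [Fintype.sum_sum_type, Sum.elim_inl, Sum.elim_inr, 
        Matrix.sum_apply, Matrix.smul_apply, vecMulVec_apply, Pi.zero_apply, mul_zero, smul_zero,
        Finset.sum_const_zero, add_zero, one_smul, diagonal_apply, Pi.single_apply]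
      rw [Finset.sum_eq_single p]
      · by_cases h : p = q
        · subst h; simp; ring
        · rw [if_neg h]
          simp [Ne.symm h]
      · intro b _ hb
        simp [Ne.symm hb]
      · intro h
        exact absurd (Finset.mem_univ _) h
    rw [h1, det_diagonal]
    exact Finset.prod_pos fun _ _ => by positivity

/-- If some vector of `B` has a large norm, the number of sinks is small. -/
theorem sink_count {n w : ℕ} {B : Set (Fin n → ℝ)} {E : ℝ} (hE : 0 < E)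
    {x : Fin n ⊕ Fin w → Fin n → ℝ} (h : IsOpt B (wt n w (1 / E)) x) {z : Fin n → ℝ}
    (hz : z ∈ B) (hzE : E < z ⬝ᵥ (dmat (wt n w (1 / E)) x)⁻¹ *ᵥ z) :
    (w : ℝ) * (1 + E) ≤ 2 * n := by
  set S := dmat (wt n w (1 / E)) x with hS
  set F := z ⬝ᵥ S⁻¹ *ᵥ z with hF
  have hsum := sum_leverage h.pos
  rw [← hS, Fintype.sum_sum_type] at hsum
  have h1 : ∀ i : Fin n, 1 - (1 + E)⁻¹ ≤ wt n w (1 / E) (Sum.inl i) *
      (x (Sum.inl i) ⬝ᵥ S⁻¹ *ᵥ x (Sum.inl i)) := by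
    intro i
    have := h.exchange (Sum.inl i) hz
    rw [← hS, ← hF] at this
    set l := x (Sum.inl i) ⬝ᵥ S⁻¹ *ᵥ x (Sum.inl i) with hl
    have hw : wt n w (1 / E) (Sum.inl i) = 1 := rfl
    rw [hw] at this ⊢
    by_contra hc
    push Not at hc
    have h3 : (1 + E)⁻¹ < 1 - 1 * l := by linarith
    have h4 : (1 + E)⁻¹ * (1 + E) < (1 - 1 * l) * (1 + 1 * F) :=
      mul_lt_mul' h3.le (by linarith) (by positivity) (lt_trans (by positivity) h3)
    rw [inv_mul_cancel₀ (by positivity)] at h4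
    linarith
  have h2 : ∀ i : Fin w, 1 / 2 ≤ wt n w (1 / E) (Sum.inr i) *
      (x (Sum.inr i) ⬝ᵥ S⁻¹ *ᵥ x (Sum.inr i)) := by
    intro i
    have := h.exchange (Sum.inr i) hz
    rw [← hS, ← hF] at this
    set l := x (Sum.inr i) ⬝ᵥ S⁻¹ *ᵥ x (Sum.inr i) with hl
    have hw : wt n w (1 / E) (Sum.inr i) = 1 / E := rfl
    rw [hw] at this ⊢
    by_contra hc
    push Not at hc
    have h3 : 1 / 2 < 1 - 1 / E * l := by linarith
    have h5 : 1 < 1 / E * F := by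
      rw [div_mul_eq_mul_div, one_mul, lt_div_iff₀ hE, one_mul]
      exact hzE
    have h4 : (1 / 2 : ℝ) * 2 < (1 - 1 / E * l) * (1 + 1 / E * F) :=
      mul_lt_mul' h3.le (by linarith) (by norm_num) (lt_trans (by norm_num) h3)
    linarith
  have h3 : (n : ℝ) * (1 - (1 + E)⁻¹) + w * (1 / 2) ≤ n := by
    refine le_trans (add_le_add ?_ ?_) hsum.le
    · calc (n : ℝ) * (1 - (1 + E)⁻¹) = ∑ _i : Fin n, (1 - (1 + E)⁻¹) := by
            rw [Finset.sum_const, Finset.card_univ, Fintype.card_fin, nsmul_eq_mul]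
        _ ≤ _ := Finset.sum_le_sum fun i _ => h1 i
    · calc (w : ℝ) * (1 / 2) = ∑ _i : Fin w, (1 / 2 : ℝ) := by simp
        _ ≤ _ := Finset.sum_le_sum fun i _ => h2 i
  have h4 : (w : ℝ) * (1 / 2) ≤ n * (1 + E)⁻¹ := by linarith
  have h5 := mul_le_mul_of_nonneg_right h4 (show (0 : ℝ) ≤ 1 + E by positivity)
  rw [mul_assoc, mul_assoc, inv_mul_cancel₀ (by positivity)] at h5
  linarith

/-- Removing a sink of an optimal design with `w + 1` sinks. -/
theorem sink_removal {n w : ℕ} {B : Set (Fin n → ℝ)} {τ : ℝ}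
    {x : Fin n → Fin n → ℝ} {s : Fin w → Fin n → ℝ} {a : Fin n → ℝ}
    (h : IsOpt B (wt n (w + 1) τ) (Sum.elim x (Fin.cons a s)))
    {y : Fin n ⊕ Fin w → Fin n → ℝ} (h' : IsOpt B (wt n w τ) y) {z : Fin n → ℝ} (hz : z ∈ B)
    (hτ : 0 ≤ τ) :
    (1 - τ * (a ⬝ᵥ (dmat (wt n (w + 1) τ) (Sum.elim x (Fin.cons a s)))⁻¹ *ᵥ a)) *
      (1 + τ * (z ⬝ᵥ (dmat (wt n w τ) y)⁻¹ *ᵥ z)) ≤ 1 := by
  set S1 := dmat (wt n (w + 1) τ) (Sum.elim x (Fin.cons a s)) with hS1
  set S0 := dmat (wt n w τ) y with hS0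
  -- the design without the sink
  have e1 : dmat (wt n w τ) (Sum.elim x s) = S1 - τ • vecMulVec a a + (0 : ℝ) • vecMulVec a a := by
    rw [hS1, dmat_cons, zero_smul]
    abel
  have d1 := det_rank_two S1 h.pos.ne'.isUnit (dmat_transpose _ _) a a τ 0
  rw [← e1] at d1
  have m1 := h'.max (Sum.elim x s) (by
    rintro (i | i)
    · exact h.mem (Sum.inl i)
    · have := h.mem (Sum.inr i.succ)
      simpa using this)
  rw [d1, ← hS0] at m1
  -- the design with the additional sink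
  have e2 : dmat (wt n (w + 1) τ) (Sum.elim (fun i => y (Sum.inl i))
      (Fin.cons z fun i => y (Sum.inr i))) = S0 - (0 : ℝ) • vecMulVec z z + τ • vecMulVec z z := by
    rw [dmat_cons, hS0, zero_smul, sub_zero]
    congr 2
    funext i
    rcases i with i | i <;> rfl
  have d2 := det_rank_two S0 h'.pos.ne'.isUnit (dmat_transpose _ _) z z 0 τ
  rw [← e2] at d2
  have m2 := h.max (Sum.elim (fun i => y (Sum.inl i)) (Fin.cons z fun i => y (Sum.inr i))) (by
    rintro (i | i)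
    · exact h'.mem (Sum.inl i)
    · refine Fin.cases ?_ (fun j => ?_) i
      · simpa using hz
      · simpa using h'.mem (Sum.inr j))
  rw [d2, ← hS1] at m2
  have p0 : 0 < S0.det := h'.pos
  have p1 : 0 < S1.det := h.pos
  set A := a ⬝ᵥ S1⁻¹ *ᵥ a
  set Z := z ⬝ᵥ S0⁻¹ *ᵥ z with hZ
  have hZ0 : 0 ≤ 1 + τ * Z := by
    have hω : ∀ i, 0 ≤ wt n w τ i := by
      rintro (i | i)
      · exact zero_le_one
      · exact hτ
    have := quad_inv_nonneg hω h'.pos z
    rw [← hS0, ← hZ] at this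
    positivity
  have m3 : S1.det * ((1 - τ * A) * (1 + τ * Z)) ≤ S1.det * 1 := by
    calc S1.det * ((1 - τ * A) * (1 + τ * Z))
        = (S1.det * ((1 - τ * A) * (1 + 0 * A) + τ * 0 * A ^ 2)) * (1 + τ * Z) := by ring
      _ ≤ S0.det * (1 + τ * Z) := mul_le_mul_of_nonneg_right m1 hZ0
      _ = S0.det * ((1 - 0 * Z) * (1 + τ * Z) + 0 * τ * Z ^ 2) := by ring
      _ ≤ S1.det := m2
      _ = S1.det * 1 := (mul_one _).symm
  exact le_of_mul_le_mul_left m3 p1

/-- The designs used: all vectors of `B` have norm at most `E`, and the number of sinks is small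
compared with the defects `1 - ℓ i`. -/
theorem exists_good_design {n : ℕ} {B : Set (Fin n → ℝ)} (hc : IsCompact B)
    {r : ℝ} (hr : 0 < r) (hB : ∀ i : Fin n, Pi.single i r ∈ B) (h0 : (0 : Fin n → ℝ) ∈ B)
    {E : ℝ} (hE : 0 < E) (hnum : 4 * (n : ℝ) + 2 * (1 + E) ≤ E ^ 2 * (1 + E)) :
    ∃ (w : ℕ) (x : Fin n ⊕ Fin w → Fin n → ℝ), (∀ i, x i ∈ B) ∧
      0 < (dmat (wt n w (1 / E)) x).det ∧
      (∀ z ∈ B, z ⬝ᵥ (dmat (wt n w (1 / E)) x)⁻¹ *ᵥ z ≤ E) ∧
      ∀ i : Fin n, (w : ℝ) * (1 / E) *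
        (1 - x (Sum.inl i) ⬝ᵥ (dmat (wt n w (1 / E)) x)⁻¹ *ᵥ x (Sum.inl i)) ≤ 1 := by
  classical
  let P : ℕ → Prop := fun w => ∃ x : Fin n ⊕ Fin w → Fin n → ℝ, IsOpt B (wt n w (1 / E)) x ∧
    ∀ z ∈ B, z ⬝ᵥ (dmat (wt n w (1 / E)) x)⁻¹ *ᵥ z ≤ E
  have hnot : ∀ w, ¬ P w → (w : ℝ) * (1 + E) ≤ 2 * n := by
    intro w hw
    obtain ⟨x, hx⟩ := exists_design hc hr hB h0 w (1 / E)
    have : ∃ z ∈ B, E < z ⬝ᵥ (dmat (wt n w (1 / E)) x)⁻¹ *ᵥ z := by
      by_contra hcon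
      push Not at hcon
      exact hw ⟨x, hx, hcon⟩
    obtain ⟨z, hz, hzE⟩ := this
    exact sink_count hE hx hz hzE
  have hex : ∃ w, P w := by
    obtain ⟨w, hw⟩ := exists_nat_gt (2 * (n : ℝ))
    refine ⟨w, by_contra fun hcon => ?_⟩
    have h1 := hnot w hcon
    have h2 : (w : ℝ) ≤ w * (1 + E) := by
      have : (0 : ℝ) ≤ w := Nat.cast_nonneg w
      nlinarith
    linarith
  obtain ⟨w, hPw, hmin⟩ : ∃ w, P w ∧ ∀ m < w, ¬ P m :=
    ⟨Nat.find hex, Nat.find_spec hex, fun m hm => Nat.find_min hex hm⟩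
  obtain ⟨x, hx, hxE⟩ := hPw
  refine ⟨w, x, hx.mem, hx.pos, hxE, ?_⟩
  intro i
  rcases w with _ | w'
  · simp
  · have hP' : ¬ P w' := hmin w' (Nat.lt_succ_self _)
    obtain ⟨y, hy⟩ := exists_design hc hr hB h0 w' (1 / E)
    have : ∃ z ∈ B, E < z ⬝ᵥ (dmat (wt n w' (1 / E)) y)⁻¹ *ᵥ z := by
      by_contra hcon
      push Not at hcon
      exact hP' ⟨y, hy, hcon⟩
    obtain ⟨z, hz, hzE⟩ := this
    have hcount := sink_count hE hy hz hzE
    set a := x (Sum.inr 0) with ha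
    have hxs : x = Sum.elim (fun i => x (Sum.inl i))
        (Fin.cons a fun i : Fin w' => x (Sum.inr i.succ)) := by
      funext j
      rcases j with j | j
      · rfl
      · refine Fin.cases ?_ (fun j => ?_) j
        · simp [ha]
        · simp
    have hrem := sink_removal (a := a) (x := fun i => x (Sum.inl i))
      (s := fun i : Fin w' => x (Sum.inr i.succ)) (by rw [← hxs]; exact hx) hy hz
      (by positivity : (0 : ℝ) ≤ 1 / E)
    rw [← hxs] at hrem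
    have hexch := hx.exchange (Sum.inl i) (hx.mem (Sum.inr 0))
    rw [← ha] at hexch
    have hwt : wt n (w' + 1) (1 / E) (Sum.inl i) = 1 := rfl
    rw [hwt] at hexch
    set S := dmat (wt n (w' + 1) (1 / E)) x with hS
    set A := a ⬝ᵥ S⁻¹ *ᵥ a
    set l := x (Sum.inl i) ⬝ᵥ S⁻¹ *ᵥ x (Sum.inl i)
    set Z := z ⬝ᵥ (dmat (wt n w' (1 / E)) y)⁻¹ *ᵥ z
    have hZ : 1 < 1 / E * Z := by
      rw [div_mul_eq_mul_div, one_mul, lt_div_iff₀ hE, one_mul]
      exact hzE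
    have hA : 1 / 2 ≤ 1 / E * A := by
      by_contra hc
      push Not at hc
      have h3 : 1 / 2 < 1 - 1 / E * A := by linarith
      have h4 : (1 / 2 : ℝ) * 2 < (1 - 1 / E * A) * (1 + 1 / E * Z) :=
        mul_lt_mul' h3.le (by linarith) (by norm_num) (lt_trans (by norm_num) h3)
      linarith
    have hA2 : E / 2 ≤ A := by
      rw [div_mul_eq_mul_div, one_mul, le_div_iff₀ hE] at hA
      linarith
    have hl : 1 - l ≤ 2 / E := by
      by_contra hc
      push Not at hc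
      have h4 : 2 / E * (E / 2) < (1 - 1 * l) * (1 + 1 * A) :=
        mul_lt_mul' (by linarith) (by linarith) (by positivity)
          (lt_trans (show (0 : ℝ) < 2 / E by positivity) (by linarith))
      have h5 : 2 / E * (E / 2) = 1 := by field_simp
      linarith
    have hw2 : 2 * ((w' + 1 : ℕ) : ℝ) ≤ E ^ 2 := by
      have h6 : 2 * ((w' + 1 : ℕ) : ℝ) * (1 + E) ≤ E ^ 2 * (1 + E) := by
        push_cast
        linarith
      exact le_of_mul_le_mul_right h6 (by positivity)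
    have h7 : ((w' + 1 : ℕ) : ℝ) * (1 / E) * (1 - l) ≤ ((w' + 1 : ℕ) : ℝ) * (1 / E) * (2 / E) :=
      mul_le_mul_of_nonneg_left hl (by positivity)
    refine h7.trans ?_
    have h8 : ((w' + 1 : ℕ) : ℝ) * (1 / E) * (2 / E) = 2 * ((w' + 1 : ℕ) : ℝ) / E ^ 2 := by
      field_simp
    rw [h8, div_le_one (by positivity)]
    exact hw2

end Pool.Agent.Cube
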