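import Pool.Agent.Helper71.Cube.Polar

/-!
# Distance to the cube: the kernel of a design, matched with the sinks
-/

namespace Pool.Agent.Cube

open Matrix Module

theorem exists_kernel_frame {n w : ℕ} (G : Matrix (Fin n) (Fin n ⊕ Fin w) ℝ)
    (hG : IsUnit (G * Gᵀ).det) :
    ∃ k : Matrix (Fin n ⊕ Fin w) (Fin w) ℝ, kᵀ * k = 1 ∧ G * k = 0 := by
  let L : EuclideanSpace ℝ (Fin n ⊕ Fin w) →ₗ[ℝ] (Fin n → ℝ) :=
    G.mulVecLin ∘ₗ (WithLp.linearEquiv 2 ℝ (Fin n ⊕ Fin w → ℝ)).toLinearMap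
  have hL : ∀ v, L v = G *ᵥ (WithLp.ofLp v) := fun v => rfl
  have hsurj : LinearMap.range L = ⊤ := by
    rw [LinearMap.range_eq_top]
    intro z
    refine ⟨WithLp.toLp 2 (Gᵀ *ᵥ (G * Gᵀ)⁻¹ *ᵥ z), ?_⟩
    rw [hL]
    show G *ᵥ Gᵀ *ᵥ (G * Gᵀ)⁻¹ *ᵥ z = z
    rw [mulVec_mulVec, mulVec_mulVec, Matrix.mul_nonsing_inv _ hG, one_mulVec]
  have hfr : finrank ℝ (LinearMap.ker L) = w := by
    have h1 := LinearMap.finrank_range_add_finrank_ker L
    rw [hsurj, finrank_top, finrank_euclideanSpace, Module.finrank_fin_fun] at h1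
    simp only [Fintype.card_sum, Fintype.card_fin] at h1
    omega
  let b : OrthonormalBasis (Fin w) ℝ (LinearMap.ker L) :=
    (stdOrthonormalBasis ℝ (LinearMap.ker L)).reindex (finCongr hfr)
  refine ⟨Matrix.of fun j l => (b l : EuclideanSpace ℝ (Fin n ⊕ Fin w)) j, ?_, ?_⟩
  · ext l l'
    rw [Matrix.mul_apply, Matrix.one_apply]
    have h1 := orthonormal_iff_ite.1 b.orthonormal l l'
    rw [← h1, Submodule.coe_inner, PiLp.inner_apply]
    refine Finset.sum_congr rfl fun j _ => ?_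
    simp only [Matrix.transpose_apply, Matrix.of_apply]
    simp [mul_comm]
  · ext p l
    have h1 : L (b l : EuclideanSpace ℝ (Fin n ⊕ Fin w)) = 0 := (b l).2
    have h2 := congrFun h1 p
    rw [hL] at h2
    rw [Matrix.mul_apply]
    exact h2

theorem exists_max_frame {n w : ℕ} (G : Matrix (Fin n) (Fin n ⊕ Fin w) ℝ)
    (hG : IsUnit (G * Gᵀ).det) :
    ∃ k : Matrix (Fin n ⊕ Fin w) (Fin w) ℝ, kᵀ * k = 1 ∧ G * k = 0 ∧
      ∀ k' : Matrix (Fin n ⊕ Fin w) (Fin w) ℝ, k'ᵀ * k' = 1 → G * k' = 0 →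
        ∑ l, k' (Sum.inr l) l ≤ ∑ l, k (Sum.inr l) l := by
  let K : Set (Matrix (Fin n ⊕ Fin w) (Fin w) ℝ) := {k | kᵀ * k = 1 ∧ G * k = 0}
  have hclosed : IsClosed K := by
    refine IsClosed.inter ?_ ?_
    · exact isClosed_eq (Continuous.matrix_mul continuous_id.matrix_transpose continuous_id)
        continuous_const
    · exact isClosed_eq (Continuous.matrix_mul continuous_const continuous_id) continuous_const
  have hsub : K ⊆ Set.pi Set.univ fun _ => Set.pi Set.univ fun _ => Set.Icc (-1 : ℝ) 1 := by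
    intro k hk j _ l _
    have h1 := congrFun (congrFun hk.1 l) l
    rw [Matrix.mul_apply, Matrix.one_apply_eq] at h1
    have h2 : k j l ^ 2 ≤ 1 := by
      rw [← h1]
      calc k j l ^ 2 = kᵀ l j * k j l := by rw [Matrix.transpose_apply, pow_two]
        _ ≤ _ := Finset.single_le_sum (f := fun i => kᵀ l i * k i l)
          (fun i _ => mul_self_nonneg (k i l)) (Finset.mem_univ j)
    rw [Set.mem_Icc, ← abs_le]
    exact (sq_le_one_iff_abs_le_one _).1 h2
  have hcomp : IsCompact K :=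
    (isCompact_univ_pi fun _ => isCompact_univ_pi fun _ => isCompact_Icc).of_isClosed_subset
      hclosed hsub
  obtain ⟨k0, hk0⟩ := exists_kernel_frame G hG
  have hcont : Continuous fun k : Matrix (Fin n ⊕ Fin w) (Fin w) ℝ => ∑ l, k (Sum.inr l) l := by
    refine continuous_finsetSum _ fun l _ => ?_
    exact continuous_id.matrix_elem _ _
  obtain ⟨k, hk, hmax⟩ := hcomp.exists_isMaxOn ⟨k0, hk0⟩ hcont.continuousOn
  exact ⟨k, hk.1, hk.2, fun k' h1 h2 => hmax ⟨h1, h2⟩⟩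

/-- The kernel of `G`: `k` has orthonormal columns spanning the kernel, its sink part `D` is
symmetric and positive semidefinite. Every `z` has a representation with coefficients
orthogonal to the corrections. -/
theorem kernel_solve {n w : ℕ} (G : Matrix (Fin n) (Fin n ⊕ Fin w) ℝ)
    (hG : IsUnit (G * Gᵀ).det) :
    ∃ C : Matrix (Fin n) (Fin w) ℝ,
      (∀ i, ∑ l, C i l ^ 2 ≤ 1 - (Gᵀ * (G * Gᵀ)⁻¹ * G) (Sum.inl i) (Sum.inl i)) ∧
      ∀ z : Fin n → ℝ, ∃ y : Fin n → ℝ,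
        z = ∑ i, y i • ((fun p => G p (Sum.inl i)) - ∑ l, C i l • fun p => G p (Sum.inr l)) ∧
        ∑ i, y i ^ 2 ≤ 2 * (z ⬝ᵥ (G * Gᵀ)⁻¹ *ᵥ z) := by
  obtain ⟨k, hk1, hk0, hmax⟩ := exists_max_frame G hG
  set S := G * Gᵀ with hS
  have hSt : Sᵀ = S := by rw [hS, transpose_mul, transpose_transpose]
  have hSit : (S⁻¹)ᵀ = S⁻¹ := by rw [transpose_nonsing_inv, hSt]
  let C : Matrix (Fin n) (Fin w) ℝ := Matrix.of fun i l => k (Sum.inl i) l
  let D : Matrix (Fin w) (Fin w) ℝ := Matrix.of fun i l => k (Sum.inr i) l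
  have hkv : ∀ u i, (k *ᵥ u) (Sum.inl i) = (C *ᵥ u) i := fun u i => rfl
  have hkv' : ∀ u i, (k *ᵥ u) (Sum.inr i) = (D *ᵥ u) i := fun u i => rfl
  -- the sink part is symmetric and positive semidefinite
  have hO : ∀ O : Matrix (Fin w) (Fin w) ℝ, Oᵀ * O = 1 → (D * O).trace ≤ D.trace := by
    intro O hO
    have h1 := hmax (k * O) (by
      rw [transpose_mul, Matrix.mul_assoc, ← Matrix.mul_assoc kᵀ, hk1, Matrix.one_mul, hO])
      (by rw [← Matrix.mul_assoc, hk0, Matrix.zero_mul])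
    exact h1
  have hs := polar_symm hO
  have hp := polar_nonneg hO
  have hknorm : ∀ u v : Fin w → ℝ, (C *ᵥ u) ⬝ᵥ (C *ᵥ v) + (D *ᵥ u) ⬝ᵥ (D *ᵥ v) = u ⬝ᵥ v := by
    intro u v
    have h1 : (k *ᵥ u) ⬝ᵥ (k *ᵥ v) = u ⬝ᵥ v := by
      rw [dotProduct_mulVec, ← mulVec_transpose, mulVec_mulVec, hk1, one_mulVec]
    rw [← h1]
    unfold dotProduct
    rw [Fintype.sum_sum_type]
    rfl
  have hD : ∀ v, (D *ᵥ v) ⬝ᵥ (D *ᵥ v) ≤ v ⬝ᵥ v := by
    intro v
    have h1 := hknorm v v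
    have h2 := dotProduct_self_nonneg' (C *ᵥ v)
    linarith
  -- the transposed form of symmetry
  have hDt : Dᵀ = D := by
    ext i j
    have := hs (Pi.single i 1) (Pi.single j 1)
    simpa using this.symm
  refine ⟨C, ?_, ?_⟩
  · intro i
    set M := Gᵀ * S⁻¹ * G with hM
    have hMM : M * M = M := by
      calc M * M = Gᵀ * (S⁻¹ * (G * Gᵀ)) * S⁻¹ * G := by
            rw [hM]; simp only [Matrix.mul_assoc]
        _ = M := by rw [← hS, Matrix.nonsing_inv_mul _ hG, Matrix.mul_one, hM]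
    have hMk : M * k = 0 := by
      rw [hM, Matrix.mul_assoc, hk0, Matrix.mul_zero]
    have hMt : Mᵀ = M := by
      rw [hM, transpose_mul, transpose_mul, transpose_transpose, hSit, Matrix.mul_assoc]
    have hkM : kᵀ * M = 0 := by
      rw [← hMt, ← transpose_mul, hMk, transpose_zero]
    set Q := 1 - M - k * kᵀ with hQ
    have hQt : Qᵀ = Q := by
      rw [hQ, transpose_sub, transpose_sub, transpose_one, hMt, transpose_mul,
        transpose_transpose]
    have hQQ : Q * Q = Q := by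
      rw [hQ]
      have e1 : M * (k * kᵀ) = 0 := by rw [← Matrix.mul_assoc, hMk, Matrix.zero_mul]
      have e2 : (k * kᵀ) * M = 0 := by rw [Matrix.mul_assoc, hkM, Matrix.mul_zero]
      have e3 : (k * kᵀ) * (k * kᵀ) = k * kᵀ := by
        rw [Matrix.mul_assoc, ← Matrix.mul_assoc kᵀ, hk1, Matrix.one_mul]
      simp only [Matrix.sub_mul, Matrix.mul_sub, Matrix.one_mul, Matrix.mul_one, hMM, e1, e2, e3]
      abel
    have h1 : 0 ≤ Q (Sum.inl i) (Sum.inl i) := by
      rw [← hQQ]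
      nth_rewrite 1 [← hQt]
      rw [Matrix.mul_apply]
      exact Finset.sum_nonneg fun j _ => mul_self_nonneg _
    have h2 : (k * kᵀ) (Sum.inl i) (Sum.inl i) = ∑ l, C i l ^ 2 := by
      rw [Matrix.mul_apply]
      refine Finset.sum_congr rfl fun l _ => ?_
      rw [Matrix.transpose_apply, pow_two]
      rfl
    rw [hQ, Matrix.sub_apply, Matrix.sub_apply, Matrix.one_apply_eq, h2] at h1
    linarith
  · intro z
    set t := Gᵀ *ᵥ S⁻¹ *ᵥ z with ht
    have htz : G *ᵥ t = z := by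
      rw [ht, mulVec_mulVec, mulVec_mulVec, ← hS, Matrix.mul_nonsing_inv _ hG, one_mulVec]
    have htt : t ⬝ᵥ t = z ⬝ᵥ S⁻¹ *ᵥ z := by
      conv_lhs => rw [ht]
      rw [dotProduct_comm, dotProduct_mulVec, vecMul_transpose, ← ht, htz]
    set tL : Fin n → ℝ := fun i => t (Sum.inl i) with htL
    set tR : Fin w → ℝ := fun i => t (Sum.inr i) with htR
    have hsplit : t ⬝ᵥ t = tL ⬝ᵥ tL + tR ⬝ᵥ tR := by
      unfold dotProduct
      rw [Fintype.sum_sum_type]
    have hkt : Cᵀ *ᵥ tL + Dᵀ *ᵥ tR = 0 := by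
      have h1 : kᵀ *ᵥ t = 0 := by
        rw [ht, mulVec_mulVec, ← transpose_mul, hk0, transpose_zero, zero_mulVec]
      rw [← h1]
      funext l
      simp only [Pi.add_apply, mulVec, dotProduct, Fintype.sum_sum_type]
      rfl
    obtain ⟨u, hu, hun⟩ := solve_D hs hp hD tR
    have hort : tL ⬝ᵥ C *ᵥ u + tR ⬝ᵥ D *ᵥ u = 0 := by
      rw [dotProduct_mulVec, dotProduct_mulVec, ← mulVec_transpose, ← mulVec_transpose,
        ← add_dotProduct, hkt, zero_dotProduct]
    have hCC : ∀ v : Fin w → ℝ, Cᵀ *ᵥ C *ᵥ v = v - D *ᵥ D *ᵥ v := by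
      intro v
      have h1 : kᵀ *ᵥ k *ᵥ v = v := by rw [mulVec_mulVec, hk1, one_mulVec]
      have h2 : Cᵀ *ᵥ C *ᵥ v + Dᵀ *ᵥ D *ᵥ v = v := by
        conv_rhs => rw [← h1]
        funext l
        simp only [Pi.add_apply]
        simp only [mulVec, dotProduct]
        rw [Fintype.sum_sum_type]
        rfl
      rw [hDt] at h2
      exact eq_sub_of_add_eq h2
    have hyR : tR - D *ᵥ u = -(Cᵀ *ᵥ (tL - C *ᵥ u)) := by
      have h1 : Cᵀ *ᵥ tL = -(D *ᵥ tR) := by
        rw [hDt] at hkt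
        exact eq_neg_of_add_eq_zero_left hkt
      rw [mulVec_sub, h1, hCC]
      have h2 : tR = u + D *ᵥ u - D *ᵥ D *ᵥ u + D *ᵥ tR := by rw [hu]; abel
      conv_lhs => rw [h2]
      abel
    refine ⟨tL - C *ᵥ u, ?_, ?_⟩
    · have h1 : G *ᵥ (t - k *ᵥ u) = z := by
        rw [mulVec_sub, htz, mulVec_mulVec, hk0, zero_mulVec, sub_zero]
      have h2 : ∀ p, z p = ∑ i, G p (Sum.inl i) * (tL - C *ᵥ u) i +
          ∑ l, G p (Sum.inr l) * (tR - D *ᵥ u) l := by
        intro p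
        rw [← h1]
        simp only [mulVec, dotProduct]
        rw [Fintype.sum_sum_type]
        rfl
      funext p
      rw [h2, hyR]
      simp only [Finset.sum_apply, Pi.smul_apply, Pi.sub_apply, smul_eq_mul, Pi.neg_apply]
      have h3 : ∀ l, (Cᵀ *ᵥ (tL - C *ᵥ u)) l = ∑ i, C i l * (tL - C *ᵥ u) i := fun l => rfl
      simp only [h3]
      have h4 : ∑ l, G p (Sum.inr l) * -∑ i, C i l * (tL - C *ᵥ u) i =
          -∑ i, (tL - C *ᵥ u) i * ∑ l, C i l * G p (Sum.inr l) := by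
        simp only [mul_neg, Finset.sum_neg_distrib, Finset.mul_sum]
        rw [Finset.sum_comm]
        congr 1
        refine Finset.sum_congr rfl fun i _ => Finset.sum_congr rfl fun l _ => ?_
        ring
      rw [h4, ← sub_eq_add_neg, ← Finset.sum_sub_distrib]
      refine Finset.sum_congr rfl fun i _ => ?_
      simp only [Pi.sub_apply]
      ring
    · have h1 : ∑ i, (tL - C *ᵥ u) i ^ 2 = (tL - C *ᵥ u) ⬝ᵥ (tL - C *ᵥ u) := by
        unfold dotProduct
        exact Finset.sum_congr rfl fun i _ => pow_two _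
      have h2 := dotProduct_self_nonneg' (tR - D *ᵥ u)
      have h3 := hknorm u u
      have h4 := dotProduct_self_nonneg' tL
      rw [h1, ← htt, hsplit]
      simp only [sub_dotProduct, dotProduct_sub] at h2 ⊢
      rw [dotProduct_comm (C *ᵥ u) tL]
      rw [dotProduct_comm (D *ᵥ u) tR] at h2
      linarith

end Pool.Agent.Cube
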