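import Pool.Agent.Helper71.Cube.Design
import Pool.Agent.Helper71.Cube.Kernel

/-!
# Distance to the cube: the basis with the constant `4 n ^ (2/3)`
-/

namespace Pool.Agent.Cube

open Matrix

/-- Absolutely convex combinations. -/
theorem abs_comb_mem {n : ℕ} {ι : Type} [Fintype ι] {B : Set (Fin n → ℝ)} (hconv : Convex ℝ B)
    (hsymm : ∀ z ∈ B, -z ∈ B) (h0 : (0 : Fin n → ℝ) ∈ B) {s : ι → Fin n → ℝ}
    (hs : ∀ i, s i ∈ B) {a : ι → ℝ} (ha : ∑ i, |a i| ≤ 1) : ∑ i, a i • s i ∈ B := by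
  classical
  let W : Option ι → ℝ := fun o => o.elim (1 - ∑ i, |a i|) fun i => |a i|
  let Z : Option ι → Fin n → ℝ := fun o => o.elim 0 fun i => if 0 ≤ a i then s i else -s i
  have h1 : ∑ o, W o • Z o ∈ B := by
    refine hconv.sum_mem ?_ ?_ ?_
    · rintro (_ | i) _
      · show 0 ≤ 1 - ∑ i, |a i|
        linarith
      · exact abs_nonneg (a i)
    · rw [Fintype.sum_option]
      show 1 - ∑ i, |a i| + ∑ i, |a i| = 1
      ring
    · rintro (_ | i) _
      · exact h0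
      · show (if 0 ≤ a i then s i else -s i) ∈ B
        split_ifs
        · exact hs i
        · exact hsymm _ (hs i)
  rw [Fintype.sum_option] at h1
  have h2 : W none • Z none + ∑ i, W (some i) • Z (some i) = ∑ i, a i • s i := by
    have : W none • Z none = 0 := smul_zero _
    rw [this, zero_add]
    refine Finset.sum_congr rfl fun i _ => ?_
    show |a i| • (if 0 ≤ a i then s i else -s i) = a i • s i
    split_ifs with h
    · rw [abs_of_nonneg h]
    · rw [abs_of_neg (not_le.1 h), smul_neg, neg_smul, neg_neg]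
  rwa [h2] at h1

/-- The matrix of the weighted points of a design. -/
noncomputable def gmat {n : ℕ} {ι : Type} (ω : ι → ℝ) (x : ι → Fin n → ℝ) :
    Matrix (Fin n) ι ℝ := Matrix.of fun p j => Real.sqrt (ω j) * x j p

theorem gmat_mul {n : ℕ} {ι : Type} [Fintype ι] {ω : ι → ℝ} (hω : ∀ i, 0 ≤ ω i)
    (x : ι → Fin n → ℝ) : gmat ω x * (gmat ω x)ᵀ = dmat ω x := by
  ext p q
  rw [Matrix.mul_apply]
  simp only [dmat, gmat, Matrix.sum_apply, Matrix.smul_apply, vecMulVec_apply,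
    Matrix.transpose_apply, Matrix.of_apply, smul_eq_mul]
  refine Finset.sum_congr rfl fun i _ => ?_
  have := Real.mul_self_sqrt (hω i)
  calc Real.sqrt (ω i) * x i p * (Real.sqrt (ω i) * x i q) =
      (Real.sqrt (ω i) * Real.sqrt (ω i)) * (x i p * x i q) := by ring
    _ = _ := by rw [this]

theorem gmat_diag {n : ℕ} {ι : Type} [Fintype ι] {ω : ι → ℝ} (hω : ∀ i, 0 ≤ ω i)
    (x : ι → Fin n → ℝ) (T : Matrix (Fin n) (Fin n) ℝ) (j : ι) :
    ((gmat ω x)ᵀ * T * gmat ω x) j j = ω j * (x j ⬝ᵥ T *ᵥ x j) := by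
  have hg : (fun p => gmat ω x p j) = Real.sqrt (ω j) • x j := by
    funext p
    rfl
  have h1 : ((gmat ω x)ᵀ * T * gmat ω x) j j =
      (fun p => gmat ω x p j) ⬝ᵥ T *ᵥ (fun p => gmat ω x p j) := by
    rw [Matrix.mul_assoc, Matrix.mul_apply]
    rfl
  rw [h1, hg, mulVec_smul, smul_dotProduct, dotProduct_smul, smul_eq_mul, smul_eq_mul,
    ← mul_assoc, Real.mul_self_sqrt (hω j)]

theorem basis_of_design {n w : ℕ} {B : Set (Fin n → ℝ)} (hconv : Convex ℝ B)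
    (hsymm : ∀ z ∈ B, -z ∈ B) (h0 : (0 : Fin n → ℝ) ∈ B) {E : ℝ} (hE : 0 < E)
    {x : Fin n ⊕ Fin w → Fin n → ℝ} (hx : ∀ i, x i ∈ B)
    (hdet : 0 < (dmat (wt n w (1 / E)) x).det)
    (hmax : ∀ z ∈ B, z ⬝ᵥ (dmat (wt n w (1 / E)) x)⁻¹ *ᵥ z ≤ E)
    (hlev : ∀ i : Fin n, (w : ℝ) * (1 / E) *
        (1 - x (Sum.inl i) ⬝ᵥ (dmat (wt n w (1 / E)) x)⁻¹ *ᵥ x (Sum.inl i)) ≤ 1) :
    ∃ b : Fin n → Fin n → ℝ, (∀ i, b i ∈ B) ∧
      ∀ z ∈ B, ∃ c : Fin n → ℝ, z = ∑ i, c i • b i ∧ (∑ i, |c i|) ^ 2 ≤ 8 * n * E := by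
  have hω : ∀ i, 0 ≤ wt n w (1 / E) i := by
    rintro (i | i)
    · exact zero_le_one
    · show 0 ≤ 1 / E
      positivity
  have hgm := gmat_mul hω x
  obtain ⟨C, hC, hsol⟩ := kernel_solve (gmat (wt n w (1 / E)) x) (by
    rw [hgm]; exact hdet.ne'.isUnit)
  rw [hgm] at hC hsol
  have hcl : ∀ i : Fin n, (fun p => gmat (wt n w (1 / E)) x p (Sum.inl i)) = x (Sum.inl i) := by
    intro i
    funext p
    show Real.sqrt 1 * x (Sum.inl i) p = x (Sum.inl i) p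
    rw [Real.sqrt_one, one_mul]
  have hcr : ∀ l : Fin w, (fun p => gmat (wt n w (1 / E)) x p (Sum.inr l)) =
      Real.sqrt (1 / E) • x (Sum.inr l) := fun l => rfl
  have hrow : ∀ i, ∑ l, |-(C i l * Real.sqrt (1 / E))| ≤ 1 := by
    intro i
    have h1 : ∑ l, |-(C i l * Real.sqrt (1 / E))| = Real.sqrt (1 / E) * ∑ l, |C i l| := by
      rw [Finset.mul_sum]
      refine Finset.sum_congr rfl fun l _ => ?_
      rw [abs_neg, abs_mul, abs_of_nonneg (Real.sqrt_nonneg _), mul_comm]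
    have h2 : (∑ l, |C i l|) ^ 2 ≤ w * ∑ l, C i l ^ 2 := by
      have := sq_sum_le_card_mul_sum_sq (s := (Finset.univ : Finset (Fin w)))
        (f := fun l => |C i l|)
      simpa using this
    have h3 := hC i
    rw [gmat_diag hω] at h3
    have hw1 : wt n w (1 / E) (Sum.inl i) = 1 := rfl
    rw [hw1, one_mul] at h3
    have h4 : (Real.sqrt (1 / E) * ∑ l, |C i l|) ^ 2 ≤ 1 := by
      rw [mul_pow, Real.sq_sqrt (by positivity)]
      calc 1 / E * (∑ l, |C i l|) ^ 2 ≤ 1 / E * (w * ∑ l, C i l ^ 2) :=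
            mul_le_mul_of_nonneg_left h2 (by positivity)
        _ ≤ 1 / E * (w * (1 - x (Sum.inl i) ⬝ᵥ (dmat (wt n w (1 / E)) x)⁻¹ *ᵥ x (Sum.inl i))) := by
            refine mul_le_mul_of_nonneg_left ?_ (by positivity)
            exact mul_le_mul_of_nonneg_left h3 (Nat.cast_nonneg w)
        _ = (w : ℝ) * (1 / E) *
            (1 - x (Sum.inl i) ⬝ᵥ (dmat (wt n w (1 / E)) x)⁻¹ *ᵥ x (Sum.inl i)) := by ring
        _ ≤ 1 := hlev i
    rw [h1]
    exact (le_abs_self _).trans ((sq_le_one_iff_abs_le_one _).1 h4)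
  have hb : ∀ i, (1 / 2 : ℝ) • (x (Sum.inl i) +
      ∑ l, (-(C i l * Real.sqrt (1 / E))) • x (Sum.inr l)) ∈ B := by
    intro i
    rw [smul_add]
    exact hconv (hx _) (abs_comb_mem hconv hsymm h0 (fun l => hx (Sum.inr l)) (hrow i))
      (by norm_num) (by norm_num) (by norm_num)
  refine ⟨_, hb, ?_⟩
  intro z hz
  obtain ⟨y, hy, hyn⟩ := hsol z
  refine ⟨fun i => 2 * y i, ?_, ?_⟩
  · rw [hy]
    refine Finset.sum_congr rfl fun i _ => ?_
    rw [hcl, smul_smul]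
    have : 2 * y i * (1 / 2) = y i := by ring
    rw [this]
    congr 1
    rw [sub_eq_add_neg, ← Finset.sum_neg_distrib]
    congr 1
    refine Finset.sum_congr rfl fun l _ => ?_
    rw [hcr, smul_smul, neg_smul]
  · have h1 : ∑ i, |2 * y i| = 2 * ∑ i, |y i| := by
      rw [Finset.mul_sum]
      refine Finset.sum_congr rfl fun i _ => ?_
      rw [abs_mul, abs_of_pos (by norm_num : (0 : ℝ) < 2)]
    have h2 : (∑ i, |y i|) ^ 2 ≤ n * ∑ i, y i ^ 2 := by
      have := sq_sum_le_card_mul_sum_sq (s := (Finset.univ : Finset (Fin n)))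
        (f := fun l => |y l|)
      simpa using this
    have h3 : ∑ i, y i ^ 2 ≤ 2 * E := hyn.trans (by linarith [hmax z hz])
    rw [h1, mul_pow]
    calc (2 : ℝ) ^ 2 * (∑ i, |y i|) ^ 2 ≤ 2 ^ 2 * (n * (2 * E)) := by
          refine mul_le_mul_of_nonneg_left (h2.trans ?_) (by norm_num)
          exact mul_le_mul_of_nonneg_left h3 (Nat.cast_nonneg n)
      _ = 8 * n * E := by ring

/-- Every symmetric convex body of dimension `n` contains `n` vectors such that every vector of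
the body is a combination of them with coefficients of sum at most `4 n ^ (2/3)`. -/
theorem cube_basis {n : ℕ} (hn : 0 < n) {B : Set (Fin n → ℝ)} (hc : IsCompact B)
    (hconv : Convex ℝ B) (hsymm : ∀ z ∈ B, -z ∈ B) {r : ℝ} (hr : 0 < r)
    (hB : ∀ i : Fin n, Pi.single i r ∈ B) :
    ∃ b : Fin n → Fin n → ℝ, (∀ i, b i ∈ B) ∧
      ∀ z ∈ B, ∃ c : Fin n → ℝ, z = ∑ i, c i • b i ∧
        ∑ i, |c i| ≤ 4 * (n : ℝ) ^ (2 / 3 : ℝ) := by
  have hn1 : (1 : ℝ) ≤ n := by exact_mod_cast hn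
  have hn0 : (0 : ℝ) ≤ n := by linarith
  have h0 : (0 : Fin n → ℝ) ∈ B := by
    have h1 := hB ⟨0, hn⟩
    have h2 := hconv h1 (hsymm _ h1) (by norm_num : (0 : ℝ) ≤ 1 / 2)
      (by norm_num : (0 : ℝ) ≤ 1 / 2) (by norm_num)
    simpa using h2
  set m : ℝ := (n : ℝ) ^ (1 / 3 : ℝ) with hm
  have hm1 : 1 ≤ m := Real.one_le_rpow hn1 (by norm_num)
  have hm3 : m ^ 3 = n := by
    rw [hm, ← Real.rpow_natCast, ← Real.rpow_mul hn0]
    norm_num
  have hm2 : (n : ℝ) ^ (2 / 3 : ℝ) = m ^ 2 := by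
    rw [hm, ← Real.rpow_natCast, ← Real.rpow_mul hn0]
    norm_num
  obtain ⟨w, x, hx, hdet, hmax, hlev⟩ := exists_good_design hc hr hB h0 (E := 2 * m)
    (by positivity) (by rw [← hm3]; nlinarith [sq_nonneg (m - 1), mul_pos (by linarith : 0 < m) (by linarith : 0 < m)])
  obtain ⟨b, hb, hb2⟩ := basis_of_design hconv hsymm h0 (by positivity) hx hdet hmax hlev
  refine ⟨b, hb, fun z hz => ?_⟩
  obtain ⟨c, hc1, hc2⟩ := hb2 z hz
  refine ⟨c, hc1, ?_⟩
  rw [hm2]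
  refine abs_le_of_sq_le_sq' ?_ (by positivity) |>.2
  calc (∑ i, |c i|) ^ 2 ≤ 8 * n * (2 * m) := hc2
    _ = (4 * m ^ 2) ^ 2 := by rw [← hm3]; ring

end Pool.Agent.Cube
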