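import Mathlib

/-!
# Distance to the cube: square matrices with maximal trace (polar decomposition)
-/

namespace Pool.Agent.Cube

open Matrix

/-- The reflection in the hyperplane orthogonal to `v`. -/
noncomputable def rf {w : ℕ} (v : Fin w → ℝ) : Matrix (Fin w) (Fin w) ℝ :=
  1 - (2 / (v ⬝ᵥ v)) • vecMulVec v v

theorem rf_orth {w : ℕ} {v : Fin w → ℝ} (hv : v ≠ 0) : (rf v)ᵀ * rf v = 1 := by
  have h0 : v ⬝ᵥ v ≠ 0 := fun h => hv (dotProduct_self_eq_zero.1 h)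
  have ht : (rf v)ᵀ = rf v := by
    unfold rf
    rw [transpose_sub, transpose_one, transpose_smul, transpose_vecMulVec]
  rw [ht]
  unfold rf
  rw [Matrix.sub_mul, Matrix.mul_sub, Matrix.mul_sub, Matrix.one_mul, Matrix.mul_one,
    Matrix.one_mul, Matrix.smul_mul, Matrix.mul_smul, vecMulVec_mul_vecMulVec, smul_smul]
  have : (2 / (v ⬝ᵥ v) * (2 / (v ⬝ᵥ v))) • vecMulVec v ((v ⬝ᵥ v) • v) =
      (2 / (v ⬝ᵥ v)) • vecMulVec v v + (2 / (v ⬝ᵥ v)) • vecMulVec v v := by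
    rw [← add_smul]
    ext p q
    simp only [Matrix.smul_apply, vecMulVec_apply, Pi.smul_apply, smul_eq_mul]
    field_simp
    ring
  rw [this]
  abel

theorem trace_mul_vecMulVec {w : ℕ} (D : Matrix (Fin w) (Fin w) ℝ) (v u : Fin w → ℝ) :
    (D * vecMulVec v u).trace = u ⬝ᵥ D *ᵥ v := by
  rw [mul_vecMulVec, trace_vecMulVec, dotProduct_comm]

theorem polar_nonneg {w : ℕ} {D : Matrix (Fin w) (Fin w) ℝ}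
    (h : ∀ O : Matrix (Fin w) (Fin w) ℝ, Oᵀ * O = 1 → (D * O).trace ≤ D.trace)
    (v : Fin w → ℝ) : 0 ≤ v ⬝ᵥ D *ᵥ v := by
  rcases eq_or_ne v 0 with rfl | hv
  · simp
  have h0 : 0 < v ⬝ᵥ v := by
    refine lt_of_le_of_ne ?_ (fun h => hv (dotProduct_self_eq_zero.1 h.symm))
    exact Finset.sum_nonneg fun _ _ => mul_self_nonneg _
  have h1 := h (rf v) (rf_orth hv)
  unfold rf at h1
  rw [Matrix.mul_sub, Matrix.mul_one, Matrix.mul_smul, trace_sub, trace_smul,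
    trace_mul_vecMulVec, smul_eq_mul] at h1
  have h2 : 0 ≤ 2 / (v ⬝ᵥ v) * (v ⬝ᵥ D *ᵥ v) := by linarith
  by_contra hc
  push Not at hc
  have h3 : 2 / (v ⬝ᵥ v) * (v ⬝ᵥ D *ᵥ v) < 0 := mul_neg_of_pos_of_neg (by positivity) hc
  linarith

theorem polar_symm {w : ℕ} {D : Matrix (Fin w) (Fin w) ℝ}
    (h : ∀ O : Matrix (Fin w) (Fin w) ℝ, Oᵀ * O = 1 → (D * O).trace ≤ D.trace)
    (v y : Fin w → ℝ) : v ⬝ᵥ D *ᵥ y = y ⬝ᵥ D *ᵥ v := by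
  rcases eq_or_ne v 0 with rfl | hv
  · simp
  have h0 : 0 < v ⬝ᵥ v := by
    refine lt_of_le_of_ne ?_ (fun h => hv (dotProduct_self_eq_zero.1 h.symm))
    exact Finset.sum_nonneg fun _ _ => mul_self_nonneg _
  have key : ∀ u : Fin w → ℝ, 0 ≤ (u ⬝ᵥ u) * (v ⬝ᵥ D *ᵥ v) + (v ⬝ᵥ v) * (u ⬝ᵥ D *ᵥ u) -
      2 * (v ⬝ᵥ u) * (u ⬝ᵥ D *ᵥ v) := by
    intro u
    rcases eq_or_ne u 0 with rfl | hu
    · simp
    have hu0 : 0 < u ⬝ᵥ u := by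
      refine lt_of_le_of_ne ?_ (fun h => hu (dotProduct_self_eq_zero.1 h.symm))
      exact Finset.sum_nonneg fun _ _ => mul_self_nonneg _
    have h1 := h (rf v * rf u) (by
      rw [transpose_mul, Matrix.mul_assoc, ← Matrix.mul_assoc (rf v)ᵀ, rf_orth hv,
        Matrix.one_mul, rf_orth hu])
    unfold rf at h1
    simp only [Matrix.sub_mul, Matrix.one_mul, Matrix.mul_sub, Matrix.mul_one, Matrix.smul_mul,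
      Matrix.mul_smul, vecMulVec_mul_vecMulVec, vecMulVec_smul, trace_sub, trace_smul,
      trace_mul_vecMulVec, smul_eq_mul] at h1
    have h2 : 0 ≤ 2 / (u ⬝ᵥ u) * (u ⬝ᵥ D *ᵥ u) + 2 / (v ⬝ᵥ v) * (v ⬝ᵥ D *ᵥ v) -
      2 / (v ⬝ᵥ v) * (2 / (u ⬝ᵥ u) * ((v ⬝ᵥ u) * (u ⬝ᵥ D *ᵥ v))) := by linarith
    have h3 := mul_nonneg h2 (mul_nonneg hu0.le h0.le)
    have h4 : (2 / (u ⬝ᵥ u) * (u ⬝ᵥ D *ᵥ u) + 2 / (v ⬝ᵥ v) * (v ⬝ᵥ D *ᵥ v) -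
      2 / (v ⬝ᵥ v) * (2 / (u ⬝ᵥ u) * ((v ⬝ᵥ u) * (u ⬝ᵥ D *ᵥ v)))) * ((u ⬝ᵥ u) * (v ⬝ᵥ v)) =
      2 * ((u ⬝ᵥ u) * (v ⬝ᵥ D *ᵥ v) + (v ⬝ᵥ v) * (u ⬝ᵥ D *ᵥ u) -
      2 * (v ⬝ᵥ u) * (u ⬝ᵥ D *ᵥ v)) := by
      field_simp
      ring
    rw [h4] at h3
    linarith
  have hq : ∀ e : ℝ, 0 ≤ ((y ⬝ᵥ y) * (v ⬝ᵥ D *ᵥ v) + (v ⬝ᵥ v) * (y ⬝ᵥ D *ᵥ y) -
      2 * (v ⬝ᵥ y) * (y ⬝ᵥ D *ᵥ v)) * (e * e) +
      ((v ⬝ᵥ v) * (v ⬝ᵥ D *ᵥ y - y ⬝ᵥ D *ᵥ v)) * e + 0 := by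
    intro e
    have h1 := key (v + e • y)
    rw [mulVec_add, mulVec_smul] at h1
    simp only [add_dotProduct, dotProduct_add, smul_dotProduct, dotProduct_smul, smul_eq_mul]
      at h1
    rw [dotProduct_comm y v] at h1
    linarith
  have h5 := discrim_le_zero hq
  unfold discrim at h5
  have h6 : (v ⬝ᵥ v) * (v ⬝ᵥ D *ᵥ y - y ⬝ᵥ D *ᵥ v) = 0 := by
    have : ((v ⬝ᵥ v) * (v ⬝ᵥ D *ᵥ y - y ⬝ᵥ D *ᵥ v)) ^ 2 ≤ 0 := by linarith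
    exact pow_eq_zero_iff (two_ne_zero) |>.1 (le_antisymm this (sq_nonneg _))
  rcases mul_eq_zero.1 h6 with h7 | h7
  · exact absurd h7 h0.ne'
  · linarith

theorem dotProduct_self_nonneg' {w : ℕ} (u : Fin w → ℝ) : 0 ≤ u ⬝ᵥ u :=
  Finset.sum_nonneg fun _ _ => mul_self_nonneg _

theorem two_dot_le {w : ℕ} (a b : Fin w → ℝ) : 2 * (a ⬝ᵥ b) ≤ a ⬝ᵥ a + b ⬝ᵥ b := by
  have h := dotProduct_self_nonneg' (a - b)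
  simp only [sub_dotProduct, dotProduct_sub] at h
  rw [dotProduct_comm b a] at h
  linarith

/-- For a symmetric positive semidefinite contraction `D` one has `|Du|² ≤ ⟨Du, u⟩`. -/
theorem norm_D_le {w : ℕ} {D : Matrix (Fin w) (Fin w) ℝ}
    (hs : ∀ v y : Fin w → ℝ, v ⬝ᵥ D *ᵥ y = y ⬝ᵥ D *ᵥ v) (hp : ∀ v, 0 ≤ v ⬝ᵥ D *ᵥ v)
    (hD : ∀ v, (D *ᵥ v) ⬝ᵥ (D *ᵥ v) ≤ v ⬝ᵥ v) (u : Fin w → ℝ) :
    (D *ᵥ u) ⬝ᵥ (D *ᵥ u) ≤ u ⬝ᵥ D *ᵥ u := by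
  have h1 := hp (u - D *ᵥ u)
  rw [mulVec_sub] at h1
  simp only [sub_dotProduct, dotProduct_sub] at h1
  rw [hs u (D *ᵥ u)] at h1
  have h2 := two_dot_le (D *ᵥ u) (D *ᵥ D *ᵥ u)
  have h3 := hD (D *ᵥ u)
  linarith

/-- The equation `(1 + D - D²) u = (1 - D) r` has a solution with `|u| ≤ |r|`. -/
theorem solve_D {w : ℕ} {D : Matrix (Fin w) (Fin w) ℝ}
    (hs : ∀ v y : Fin w → ℝ, v ⬝ᵥ D *ᵥ y = y ⬝ᵥ D *ᵥ v) (hp : ∀ v, 0 ≤ v ⬝ᵥ D *ᵥ v)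
    (hD : ∀ v, (D *ᵥ v) ⬝ᵥ (D *ᵥ v) ≤ v ⬝ᵥ v) (r : Fin w → ℝ) :
    ∃ u : Fin w → ℝ, u + D *ᵥ u - D *ᵥ D *ᵥ u = r - D *ᵥ r ∧ u ⬝ᵥ u ≤ r ⬝ᵥ r := by
  have hM : ∀ u, (1 + D - D * D) *ᵥ u = u + D *ᵥ u - D *ᵥ D *ᵥ u := by
    intro u
    rw [Matrix.sub_mulVec, Matrix.add_mulVec, one_mulVec, mulVec_mulVec]
  have hq : ∀ u, u ⬝ᵥ u ≤ u ⬝ᵥ (u + D *ᵥ u - D *ᵥ D *ᵥ u) := by
    intro u
    have h1 := norm_D_le hs hp hD u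
    simp only [dotProduct_add, dotProduct_sub]
    rw [hs u (D *ᵥ u)]
    linarith
  have hdet : (1 + D - D * D).det ≠ 0 := by
    intro h
    obtain ⟨v, hv, hv0⟩ := Matrix.exists_mulVec_eq_zero_iff.2 h
    have h1 := hq v
    rw [← hM, hv0, dotProduct_zero] at h1
    exact hv (dotProduct_self_eq_zero.1 (le_antisymm h1 (dotProduct_self_nonneg' v)))
  refine ⟨(1 + D - D * D)⁻¹ *ᵥ (r - D *ᵥ r), ?_, ?_⟩
  · rw [← hM, mulVec_mulVec, Matrix.mul_nonsing_inv _ hdet.isUnit, one_mulVec]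
  · set u := (1 + D - D * D)⁻¹ *ᵥ (r - D *ᵥ r) with hu
    have he : u + D *ᵥ u - D *ᵥ D *ᵥ u = r - D *ᵥ r := by
      rw [← hM, hu, mulVec_mulVec, Matrix.mul_nonsing_inv _ hdet.isUnit, one_mulVec]
    have h1 := hq u
    rw [he, dotProduct_sub, hs u r] at h1
    have h2 := two_dot_le (u - D *ᵥ u) r
    simp only [sub_dotProduct, dotProduct_sub] at h2
    rw [dotProduct_comm (D *ᵥ u) u, dotProduct_comm (D *ᵥ u) r] at h2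
    have h3 := norm_D_le hs hp hD u
    have h4 := hp u
    linarith

end Pool.Agent.Cube
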