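import Mathlib

/-!
# Distance to the cube: determinants of weighted designs
-/

namespace Pool.Agent.Cube

open Matrix

/-- The design matrix `∑ ω_i x_i x_iᵀ`. -/
noncomputable def dmat {n : ℕ} {ι : Type} [Fintype ι] (ω : ι → ℝ) (x : ι → Fin n → ℝ) :
    Matrix (Fin n) (Fin n) ℝ := ∑ i, ω i • vecMulVec (x i) (x i)

/-- Rank two update of a determinant. -/
theorem det_rank_two {n : ℕ} (S : Matrix (Fin n) (Fin n) ℝ) (hS : IsUnit S.det)
    (hsymm : Sᵀ = S) (a z : Fin n → ℝ) (α β : ℝ) :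
    (S - α • vecMulVec a a + β • vecMulVec z z).det =
      S.det * ((1 - α * (a ⬝ᵥ S⁻¹ *ᵥ a)) * (1 + β * (z ⬝ᵥ S⁻¹ *ᵥ z)) +
        α * β * (a ⬝ᵥ S⁻¹ *ᵥ z) ^ 2) := by
  have hinv : (S⁻¹)ᵀ = S⁻¹ := by rw [transpose_nonsing_inv, hsymm]
  have hza : z ⬝ᵥ S⁻¹ *ᵥ a = a ⬝ᵥ S⁻¹ *ᵥ z := by
    rw [dotProduct_mulVec, ← mulVec_transpose, hinv, dotProduct_comm]
  let U : Matrix (Fin n) (Fin 2) ℝ := of fun p j => ![(S⁻¹ *ᵥ a) p, (S⁻¹ *ᵥ z) p] j
  let V : Matrix (Fin 2) (Fin n) ℝ := of fun j p => ![-α * a p, β * z p] j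
  have h1 : S - α • vecMulVec a a + β • vecMulVec z z = S * (1 + U * V) := by
    have hUV : U * V = -(α • vecMulVec (S⁻¹ *ᵥ a) a) + β • vecMulVec (S⁻¹ *ᵥ z) z := by
      ext p q
      simp only [U, V, mul_apply, Fin.sum_univ_two, of_apply, cons_val_zero, cons_val_one,
        Matrix.add_apply, Matrix.neg_apply, Matrix.smul_apply, vecMulVec_apply, smul_eq_mul]
      ring
    rw [hUV, Matrix.mul_add, Matrix.mul_add, Matrix.mul_one, Matrix.mul_neg, Matrix.mul_smul,
      Matrix.mul_smul, mul_vecMulVec, mul_vecMulVec, mulVec_mulVec, mulVec_mulVec,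
      Matrix.mul_nonsing_inv _ hS, one_mulVec, one_mulVec]
    abel
  rw [h1, det_mul, Matrix.det_one_add_mul_comm, det_fin_two]
  congr 1
  have e00 : (V * U) 0 0 = -α * (a ⬝ᵥ S⁻¹ *ᵥ a) := by
    simp only [U, V, mul_apply, of_apply, cons_val_zero, dotProduct, Finset.mul_sum]
    exact Finset.sum_congr rfl fun p _ => by ring
  have e01 : (V * U) 0 1 = -α * (a ⬝ᵥ S⁻¹ *ᵥ z) := by
    simp only [U, V, mul_apply, of_apply, cons_val_zero, cons_val_one, dotProduct,
      Finset.mul_sum]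
    exact Finset.sum_congr rfl fun p _ => by ring
  have e10 : (V * U) 1 0 = β * (a ⬝ᵥ S⁻¹ *ᵥ z) := by
    rw [← hza]
    simp only [U, V, mul_apply, of_apply, cons_val_zero, cons_val_one, dotProduct,
      Finset.mul_sum]
    exact Finset.sum_congr rfl fun p _ => by ring
  have e11 : (V * U) 1 1 = β * (z ⬝ᵥ S⁻¹ *ᵥ z) := by
    simp only [U, V, mul_apply, of_apply, cons_val_one, cons_val_fin_one,
      dotProduct, Finset.mul_sum]
    exact Finset.sum_congr rfl fun p _ => by ring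
  rw [Matrix.add_apply, Matrix.add_apply, Matrix.add_apply, Matrix.add_apply, e00, e01, e10, e11]
  simp
  ring

theorem dmat_transpose {n : ℕ} {ι : Type} [Fintype ι] (ω : ι → ℝ) (x : ι → Fin n → ℝ) :
    (dmat ω x)ᵀ = dmat ω x := by
  unfold dmat
  rw [transpose_sum]
  refine Finset.sum_congr rfl fun i _ => ?_
  rw [transpose_smul, transpose_vecMulVec]

/-- Replacing one point of a design. -/
theorem dmat_update {n : ℕ} {ι : Type} [Fintype ι] [DecidableEq ι] (ω : ι → ℝ)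
    (x : ι → Fin n → ℝ) (i : ι) (z : Fin n → ℝ) :
    dmat ω (Function.update x i z) =
      dmat ω x - ω i • vecMulVec (x i) (x i) + ω i • vecMulVec z z := by
  unfold dmat
  rw [← Finset.add_sum_erase _ _ (Finset.mem_univ i),
    ← Finset.add_sum_erase (f := fun j => ω j • vecMulVec (x j) (x j)) _ (Finset.mem_univ i)]
  have : ∑ j ∈ Finset.univ.erase i,
      ω j • vecMulVec (Function.update x i z j) (Function.update x i z j) =
      ∑ j ∈ Finset.univ.erase i, ω j • vecMulVec (x j) (x j) := by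
    refine Finset.sum_congr rfl fun j hj => ?_
    rw [Function.update_of_ne (Finset.ne_of_mem_erase hj)]
  rw [this, Function.update_self]
  abel

end Pool.Agent.Cube
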